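import Mathlib

/-!
# Definitions for MP_64c1fc_an: Tanaka-Ito continued fractions and matching
-/

set_option autoImplicit false

open MeasureTheory Set Filter Topology

namespace Pool.Agent.T2h2.TI

/-- The Tanaka-Ito map `T_α(x) = 1/x - ⌊1/x + 1 - α⌋` for `x ≠ 0`, `T_α(0) = 0`. -/
noncomputable def T (α x : ℝ) : ℝ := if x = 0 then 0 else 1 / x - ⌊1 / x + 1 - α⌋

/-- Non-empty open intervals contained in `[0,1]`. -/
def IsOpenInterval (J : Set ℝ) : Prop := ∃ a b : ℝ, a < b ∧ J = Ioo a b ∧ J ⊆ Icc 0 1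

/-- Conditions (i) and (ii): `T_α^M (α-1) = T_α^N (α)` for all `α ∈ J`, and
`T_α^(M-1) (α-1) ≠ T_α^(N-1) (α)` for almost all `α ∈ J`. -/
def Matches (M N : ℕ) (J : Set ℝ) : Prop :=
  (∀ α ∈ J, (T α)^[M] (α - 1) = (T α)^[N] α) ∧
    volume {α | α ∈ J ∧ (T α)^[M - 1] (α - 1) = (T α)^[N - 1] α} = 0

/-- Matching intervals: non-empty open intervals in `[0,1]` with (i), (ii) for some exponents
`M, N ≥ 1`, which are not contained in a larger open interval with (i), (ii). -/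
def IsMatchingInterval (J : Set ℝ) : Prop :=
  ∃ M N : ℕ, 1 ≤ M ∧ 1 ≤ N ∧ IsOpenInterval J ∧ Matches M N J ∧
    ∀ J' : Set ℝ, IsOpenInterval J' → Matches M N J' → J ⊆ J' → J' = J

/-- The bifurcation set `E`: the complement in `[0,1]` of the union of the matching intervals. -/
def bifurcationSet : Set ℝ := Icc 0 1 \ ⋃₀ {J | IsMatchingInterval J}

/-- The non-isolated points of a set. -/
def nonIsolated (E : Set ℝ) : Set ℝ :=
  {α | α ∈ E ∧ ∀ U ∈ 𝓝 α, ∃ β ∈ U, β ∈ E ∧ β ≠ α}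

end Pool.Agent.T2h2.TI
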