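import Pool.Agent.T2h2.TI.Defs

/-!
# The two-branch system in the window `(0.69633, 0.69635)`
-/

set_option autoImplicit false

open MeasureTheory Set Filter Topology

namespace Pool.Agent.T2h2.TI

/-- the window -/
def W (α : ℝ) : Prop := 69633 / 100000 < α ∧ α < 69635 / 100000

noncomputable def t1 (α : ℝ) : ℝ := 1 / (1 - α) - 3
noncomputable def t2 (α : ℝ) : ℝ := 1 / t1 α - 3

theorem t1_lo {α : ℝ} (h : W α) : 293 / 1000 < t1 α := by
  have h1 : 0 < 1 - α := by have := h.2; linarith
  have : 3293 / 1000 < 1 / (1 - α) := by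
    rw [lt_div_iff₀ h1]
    have := h.1
    linarith
  unfold t1
  linarith

theorem t1_hi {α : ℝ} (h : W α) : t1 α < 2933 / 10000 := by
  have h1 : 0 < 1 - α := by have := h.2; linarith
  have : 1 / (1 - α) < 32933 / 10000 := by
    rw [div_lt_iff₀ h1]
    have := h.2
    linarith
  unfold t1
  linarith

theorem t2_lo {α : ℝ} (h : W α) : 4094 / 10000 < t2 α := by
  have h1 := t1_lo h
  have h2 := t1_hi h
  have : 34094 / 10000 < 1 / t1 α := by
    rw [lt_div_iff₀ (by linarith)]
    linarith
  unfold t2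
  linarith

theorem t2_hi {α : ℝ} (h : W α) : t2 α < 413 / 1000 := by
  have h1 := t1_lo h
  have h2 := t1_hi h
  have : 1 / t1 α < 3413 / 1000 := by
    rw [div_lt_iff₀ (by linarith)]
    linarith
  unfold t2
  linarith

/-- the invariant interval -/
def Inv (α t : ℝ) : Prop := t1 α ≤ t ∧ t ≤ t2 α

theorem inv_lo {α t : ℝ} (h : W α) (ht : Inv α t) : 293 / 1000 < t := (t1_lo h).trans_le ht.1

theorem inv_hi {α t : ℝ} (h : W α) (ht : Inv α t) : t < 413 / 1000 := ht.2.trans_lt (t2_hi h)

theorem inv_t1 {α : ℝ} (h : W α) : Inv α (t1 α) := by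
  refine ⟨le_rfl, ?_⟩
  have h1 := t1_hi h
  have h2 := t2_lo h
  linarith

theorem invL {α t : ℝ} (h : W α) (ht : Inv α t) (hc : t ≤ 1 - α) : Inv α (1 / t - 3) := by
  have h1 := t1_lo h
  have h2 := inv_lo h ht
  constructor
  · unfold t1
    have : 1 / (1 - α) ≤ 1 / t := one_div_le_one_div_of_le (by linarith) hc
    linarith
  · unfold t2
    have : 1 / t ≤ 1 / t1 α := one_div_le_one_div_of_le (by linarith) ht.1
    linarith

theorem t1_eq {α : ℝ} (h : W α) : t1 α + 2 = α / (1 - α) := by
  have h1 : 1 - α ≠ 0 := by have := h.2; intro h0; linarith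
  unfold t1
  field_simp
  ring

theorem hR {α t : ℝ} (h : W α) (ht : Inv α t) (hd : α / (1 + α) ≤ t) :
    α / (1 - α) ≤ t / (1 - 2 * t) := by
  have h1 := h.1
  have h2 := h.2
  have h3 := inv_hi h ht
  rw [div_le_iff₀ (by linarith)] at hd
  rw [div_le_div_iff₀ (by linarith) (by linarith)]
  nlinarith

theorem invR {α t : ℝ} (h : W α) (ht : Inv α t) (hd : α / (1 + α) ≤ t) :
    Inv α (t / (1 - 2 * t) - 2) := by
  have h3 := inv_hi h ht
  have h4 := inv_lo h ht
  constructor
  · have := hR h ht hd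
    have := t1_eq h
    linarith
  · refine le_trans ?_ ht.2
    have : t / (1 - 2 * t) ≤ t + 2 := by
      rw [div_le_iff₀ (by linarith)]
      nlinarith
    linarith

theorem d_lo {α : ℝ} (h : W α) : 4104 / 10000 < α / (1 + α) := by
  have h1 := h.1
  rw [lt_div_iff₀ (by linarith)]
  linarith

theorem T_eq {α x : ℝ} (k : ℤ) (hx : x ≠ 0) (h1 : (k : ℝ) ≤ 1 / x + 1 - α)
    (h2 : 1 / x + 1 - α < k + 1) : T α x = 1 / x - k := by
  rw [T, if_neg hx, Int.floor_eq_iff.2 ⟨h1, h2⟩]

/-- the relation between the two orbits -/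
def St (α : ℝ) (n m : ℕ) (t : ℝ) : Prop :=
  (T α)^[n] α = t ∧ (t ≤ 1 - α → (T α)^[m] (α - 1) = -t) ∧
    (1 - α < t → (T α)^[m] (α - 1) = 1 - t)

theorem TL {α t : ℝ} (h : W α) (ht : Inv α t) (hc : t ≤ 1 - α) : T α t = 1 / t - 3 := by
  have h1 := h.1
  have h2 := h.2
  have h4 := inv_lo h ht
  have h5 : 1 / (1 - α) ≤ 1 / t := one_div_le_one_div_of_le (by linarith) hc
  have h6 := inv_hi h (invL h ht hc)
  have h7 := inv_lo h (invL h ht hc)
  exact T_eq 3 (by linarith) (by push_cast; linarith) (by push_cast; linarith)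

/-- the reflected orbit, after a state with value `s` -/
theorem Trefl {α s y : ℝ} (h : W α) (hs : Inv α s) (hy : y ≠ 0) (e : 1 / y = -(s + 3)) :
    (s ≤ 1 - α → T α y = -s) ∧ (1 - α < s → T α y = 1 - s) := by
  have h1 := h.1
  have h2 := h.2
  have h4 := inv_lo h hs
  have h5 := inv_hi h hs
  constructor
  · intro hc
    rw [T_eq (-3) hy (by rw [e]; push_cast; linarith) (by rw [e]; push_cast; linarith), e]
    push_cast
    ring
  · intro hc
    rw [T_eq (-4) hy (by rw [e]; push_cast; linarith) (by rw [e]; push_cast; linarith), e]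
    push_cast
    ring

theorem stL {α t : ℝ} {n m : ℕ} (h : W α) (ht : Inv α t) (hc : t ≤ 1 - α) (hst : St α n m t) :
    St α (n + 1) (m + 1) (1 / t - 3) := by
  have h4 := inv_lo h ht
  have hi := invL h ht hc
  have key := Trefl h hi (y := -t) (by linarith) (by rw [div_neg]; ring)
  refine ⟨?_, ?_, ?_⟩
  · rw [Function.iterate_succ_apply', hst.1, TL h ht hc]
  · intro h5
    rw [Function.iterate_succ_apply', hst.2.1 hc]
    exact key.1 h5
  · intro h5
    rw [Function.iterate_succ_apply', hst.2.1 hc]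
    exact key.2 h5

theorem TR1 {α t : ℝ} (h : W α) (ht : Inv α t) (hd : α / (1 + α) ≤ t) : T α t = 1 / t - 2 := by
  have h1 := h.1
  have h2 := h.2
  have h4 := inv_lo h ht
  have h5 := inv_hi h ht
  have h6 := d_lo h
  have h7 : 2 < 1 / t := by
    rw [lt_div_iff₀ (by linarith)]
    linarith
  have h8 : 1 / t < 25 / 10 := by
    rw [div_lt_iff₀ (by linarith)]
    linarith
  exact T_eq 2 (by linarith) (by push_cast; linarith) (by push_cast; linarith)

theorem TR2 {α t : ℝ} (h : W α) (ht : Inv α t) (hd : α / (1 + α) ≤ t) :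
    T α (1 / t - 2) = t / (1 - 2 * t) - 2 := by
  have h1 := h.1
  have h2 := h.2
  have h4 := inv_lo h ht
  have h5 := inv_hi h ht
  have h6 := inv_lo h (invR h ht hd)
  have h7 := inv_hi h (invR h ht hd)
  have e0 : 1 / t - 2 ≠ 0 := by
    have : 2 < 1 / t := by
      rw [lt_div_iff₀ (by linarith)]
      linarith
    linarith
  have e1 : 1 / (1 / t - 2) = t / (1 - 2 * t) := by
    have h8 : t ≠ 0 := by linarith
    have h9 : 1 - 2 * t ≠ 0 := by linarith
    rw [div_sub' h8, one_div_div]
    ring_nf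
  rw [T_eq 2 e0 (by rw [e1]; push_cast; linarith) (by rw [e1]; push_cast; linarith), e1]
  push_cast
  ring

theorem TR3 {α t : ℝ} (h : W α) (ht : Inv α t) (hd : α / (1 + α) ≤ t) :
    T α (1 - t) = 1 / (1 - t) - 2 := by
  have h1 := h.1
  have h2 := h.2
  have h4 := inv_lo h ht
  have h5 := inv_hi h ht
  have h6 : 1 + α ≤ 1 / (1 - t) := by
    rw [div_le_iff₀ (by linarith)] at hd
    rw [le_div_iff₀ (by linarith)]
    linarith
  have h7 : 1 / (1 - t) < 2 := by
    rw [div_lt_iff₀ (by linarith)]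
    linarith
  exact T_eq 2 (by linarith) (by push_cast; linarith) (by push_cast; linarith)

theorem TR3_neg {α t : ℝ} (h : W α) (ht : Inv α t) : 1 / (1 - t) - 2 < 0 := by
  have h4 := inv_lo h ht
  have h5 := inv_hi h ht
  have h7 : 1 / (1 - t) < 2 := by
    rw [div_lt_iff₀ (by linarith)]
    linarith
  linarith

theorem stR {α t : ℝ} {n m : ℕ} (h : W α) (ht : Inv α t) (hd : α / (1 + α) ≤ t)
    (hst : St α n m t) : St α (n + 2) (m + 2) (t / (1 - 2 * t) - 2) := by
  have h1 := h.1
  have h2 := h.2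
  have h4 := inv_lo h ht
  have h5 := inv_hi h ht
  have h6 := d_lo h
  have hi := invR h ht hd
  have hc : 1 - α < t := by linarith
  have e : 1 / (1 / (1 - t) - 2) = -((t / (1 - 2 * t) - 2) + 3) := by
    have h8 : 1 - t ≠ 0 := by linarith
    have h9 : 1 - 2 * t ≠ 0 := by linarith
    have h10 : 1 / (1 - t) - 2 = -((1 - 2 * t) / (1 - t)) := by
      field_simp
      ring
    have h11 : (1 - t) / (1 - 2 * t) = t / (1 - 2 * t) + 1 := by
      rw [div_add_one h9]
      congr 1
      ring
    rw [h10, div_neg, one_div_div, h11]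
    ring
  have key := Trefl h hi (y := 1 / (1 - t) - 2) (TR3_neg h ht).ne e
  refine ⟨?_, ?_, ?_⟩
  · rw [Function.iterate_succ_apply', Function.iterate_succ_apply', hst.1, TR1 h ht hd,
      TR2 h ht hd]
  · intro h5
    rw [Function.iterate_succ_apply', Function.iterate_succ_apply', hst.2.2 hc, TR3 h ht hd]
    exact key.1 h5
  · intro h5
    rw [Function.iterate_succ_apply', Function.iterate_succ_apply', hst.2.2 hc, TR3 h ht hd]
    exact key.2 h5

theorem stF {α t : ℝ} {n m : ℕ} (h : W α) (ht : Inv α t) (hc : 1 - α < t)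
    (hd : t < α / (1 + α)) (hst : St α n m t) :
    (T α)^[m + 2] (α - 1) = (T α)^[n + 1] α ∧ (T α)^[m + 1] (α - 1) ≠ (T α)^[n] α := by
  have h1 := h.1
  have h2 := h.2
  have h4 := inv_lo h ht
  have h5 := inv_hi h ht
  have h6 : 1 / (1 - t) < 1 + α := by
    rw [lt_div_iff₀ (by linarith)] at hd
    rw [div_lt_iff₀ (by linarith)]
    linarith
  have h7 : 1 < 1 / (1 - t) := by
    rw [lt_div_iff₀ (by linarith)]
    linarith
  have e1 : T α (1 - t) = 1 / (1 - t) - 1 := by
    have := T_eq (α := α) (x := 1 - t) 1 (by linarith) (by push_cast; linarith)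
      (by push_cast; linarith)
    rw [this]
    push_cast
    ring
  have e2 : 1 / (1 - t) - 1 = t / (1 - t) := by
    have h8 : 1 - t ≠ 0 := by linarith
    field_simp
    ring
  have e3 : 1 / (1 / (1 - t) - 1) = 1 / t - 1 := by
    have h8 : 1 - t ≠ 0 := by linarith
    have h9 : t ≠ 0 := by linarith
    rw [e2, one_div_div]
    field_simp
  have e4 : T α (1 / (1 - t) - 1) = T α t := by
    have h8 : 1 / (1 - t) - 1 ≠ 0 := by linarith
    have h9 : t ≠ 0 := by linarith
    rw [T, if_neg h8, T, if_neg h9, e3]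
    have : 1 / t - 1 + 1 - α = (1 / t + 1 - α) - 1 := by ring
    rw [this, Int.floor_sub_one]
    push_cast
    ring
  constructor
  · rw [Function.iterate_succ_apply', Function.iterate_succ_apply', hst.2.2 hc, e1, e4,
      Function.iterate_succ_apply', hst.1]
  · rw [Function.iterate_succ_apply', hst.2.2 hc, e1, hst.1, e2]
    intro h8
    rw [div_eq_iff (by linarith)] at h8
    nlinarith

theorem st0 {α : ℝ} (h : W α) : St α 2 1 (t1 α) := by
  have h1 := h.1
  have h2 := h.2
  have a1 : 1 < 1 / α := by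
    rw [lt_div_iff₀ (by linarith)]
    linarith
  have a2 : 1 / α < 3 / 2 := by
    rw [div_lt_iff₀ (by linarith)]
    linarith
  have e1 : T α α = 1 / α - 1 := by
    have := T_eq (α := α) (x := α) 1 (by linarith) (by push_cast; linarith)
      (by push_cast; linarith)
    rw [this]
    push_cast
    ring
  have e2 : 1 / (1 / α - 1) = t1 α + 2 := by
    have h8 : 1 - α ≠ 0 := by linarith
    have h9 : α ≠ 0 := by linarith
    rw [t1_eq h, div_sub' h9, one_div_div, mul_one]
  have h3 := t1_lo h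
  have h4 := t1_hi h
  have e3 : T α (1 / α - 1) = t1 α := by
    rw [T_eq 2 (by linarith) (by rw [e2]; push_cast; linarith)
      (by rw [e2]; push_cast; linarith), e2]
    push_cast
    ring
  have key := Trefl h (inv_t1 h) (y := α - 1) (by linarith) (by
    have h8 : 1 - α ≠ 0 := by linarith
    unfold t1
    rw [show α - 1 = -(1 - α) by ring, div_neg]
    ring)
  refine ⟨?_, ?_, ?_⟩
  · rw [Function.iterate_succ_apply', Function.iterate_succ_apply', Function.iterate_zero_apply,
      e1, e3]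
  · intro h5
    rw [Function.iterate_succ_apply', Function.iterate_zero_apply]
    exact key.1 h5
  · intro h5
    rw [Function.iterate_succ_apply', Function.iterate_zero_apply]
    exact key.2 h5

end Pool.Agent.T2h2.TI
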