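import Pool.Agent.T2h2.TI.Dyn

/-!
# Infinitely many points of the bifurcation set in the window
-/

set_option autoImplicit false

open MeasureTheory Set Filter Topology

namespace Pool.Agent.T2h2.TI

theorem pos_upto {α : ℝ} (h : W α) {S : Set ℝ} (h0 : t1 α ∈ S)
    (hS : ∀ t ∈ S, (t ≤ 1 - α ∧ 1 / t - 3 ∈ S) ∨
      (α / (1 + α) ≤ t ∧ t / (1 - 2 * t) - 2 ∈ S)) :
    ∀ k : ℕ, ∃ n, k ≤ n ∧ ∃ t ∈ S, Inv α t ∧ St α (n + 1) n t ∧
      ∀ j ≤ n + 1, 0 < (T α)^[j] α := by
  have w1 := h.1
  have w2 := h.2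
  intro k
  induction k with
  | zero =>
    refine ⟨1, by norm_num, t1 α, h0, inv_t1 h, st0 h, ?_⟩
    have hst := (st0 h).1
    have a1 : 1 < 1 / α := by
      rw [lt_div_iff₀ (by linarith)]
      linarith
    have a2 : 1 / α < 3 / 2 := by
      rw [div_lt_iff₀ (by linarith)]
      linarith
    intro j hj
    interval_cases j
    · rw [Function.iterate_zero_apply]
      linarith
    · rw [Function.iterate_succ_apply', Function.iterate_zero_apply,
        T_eq (α := α) (x := α) 1 (by linarith) (by push_cast; linarith) (by push_cast; linarith)]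
      push_cast
      linarith
    · rw [hst]
      have := t1_lo h
      linarith
  | succ k ih =>
    obtain ⟨n, hn, t, ht, hi, hst, hp⟩ := ih
    rcases hS t ht with ⟨hc, hm⟩ | ⟨hd, hm⟩
    · refine ⟨n + 1, by omega, _, hm, invL h hi hc, stL h hi hc hst, ?_⟩
      intro j hj
      rcases Nat.lt_or_ge (n + 1) j with h3 | h3
      · have : j = n + 1 + 1 := by omega
        rw [this, (stL h hi hc hst).1]
        have := inv_lo h (invL h hi hc)
        linarith
      · exact hp j h3
    · refine ⟨n + 2, by omega, _, hm, invR h hi hd, stR h hi hd hst, ?_⟩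
      intro j hj
      rcases Nat.lt_or_ge (n + 1) j with h3 | h3
      · rcases Nat.lt_or_ge (n + 2) j with h4 | h4
        · have : j = n + 1 + 2 := by omega
          rw [this, (stR h hi hd hst).1]
          have := inv_lo h (invR h hi hd)
          linarith
        · have : j = n + 1 + 1 := by omega
          rw [this, Function.iterate_succ_apply', hst.1, TR1 h hi hd]
          have h5 := inv_hi h hi
          have h6 := inv_lo h hi
          have : 2 < 1 / t := by
            rw [lt_div_iff₀ (by linarith)]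
            linarith
          linarith
      · exact hp j h3

theorem not_match {α : ℝ} (h : W α) {S : Set ℝ} (h0 : t1 α ∈ S)
    (hS : ∀ t ∈ S, (t ≤ 1 - α ∧ 1 / t - 3 ∈ S) ∨
      (α / (1 + α) ≤ t ∧ t / (1 - 2 * t) - 2 ∈ S)) (M N : ℕ) :
    (T α)^[M] (α - 1) ≠ (T α)^[N] α := by
  intro heq
  have hpos : ∀ j : ℕ, 0 < (T α)^[j] α := by
    intro j
    obtain ⟨n, hn, t, ht, hi, hst, hp⟩ := pos_upto h h0 hS j
    exact hp j (by omega)
  have hshift : ∀ j : ℕ, 0 < (T α)^[j + M] (α - 1) := by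
    intro j
    rw [Function.iterate_add_apply, heq, ← Function.iterate_add_apply]
    exact hpos _
  have hshift' : ∀ j : ℕ, M ≤ j → 0 < (T α)^[j] (α - 1) := by
    intro j hj
    have := hshift (j - M)
    rwa [Nat.sub_add_cancel hj] at this
  obtain ⟨n, hn, t, ht, hi, hst, hp⟩ := pos_upto h h0 hS M
  rcases hS t ht with ⟨hc, -⟩ | ⟨hd, -⟩
  · have h3 := hshift' n hn
    rw [hst.2.1 hc] at h3
    have := inv_lo h hi
    linarith
  · have h3 := hshift' (n + 1) (by omega)
    have h4 : 1 - α < t := by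
      have := d_lo h
      have := h.1
      linarith
    rw [Function.iterate_succ_apply', hst.2.2 h4, TR3 h hi hd] at h3
    have := TR3_neg h hi
    linarith

theorem mem_E {α : ℝ} (h : W α) {S : Set ℝ} (h0 : t1 α ∈ S)
    (hS : ∀ t ∈ S, (t ≤ 1 - α ∧ 1 / t - 3 ∈ S) ∨
      (α / (1 + α) ≤ t ∧ t / (1 - 2 * t) - 2 ∈ S)) : α ∈ bifurcationSet := by
  refine ⟨⟨by linarith [h.1], by linarith [h.2]⟩, ?_⟩
  rintro ⟨J, ⟨M, N, -, -, -, hm, -⟩, hJ⟩
  exact not_match h h0 hS M N (hm.1 α hJ)

/-- the fixed point of the left branch -/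
noncomputable def P : ℝ := (Real.sqrt 13 - 3) / 2

theorem P_eq : P * P + 3 * P = 1 := by
  have h := Real.mul_self_sqrt (show (0 : ℝ) ≤ 13 by norm_num)
  unfold P
  nlinarith

theorem P_lo : 3027 / 10000 < P := by
  have : (36054 / 10000 : ℝ) < Real.sqrt 13 := by
    apply Real.lt_sqrt_of_sq_lt
    norm_num
  unfold P
  linarith

theorem P_hi : P < 3028 / 10000 := by
  have : Real.sqrt 13 < (36056 / 10000 : ℝ) := by
    rw [Real.sqrt_lt' (by norm_num)]
    norm_num
  unfold P
  linarith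

/-- the inverse of the right branch -/
noncomputable def Ri (s : ℝ) : ℝ := (s + 2) / (2 * s + 5)

theorem Ri_eq {s : ℝ} (hs : 0 < s) : Ri s / (1 - 2 * Ri s) - 2 = s := by
  have h1 : 2 * s + 5 ≠ 0 := by linarith
  have h2 : 1 - 2 * Ri s = 1 / (2 * s + 5) := by
    unfold Ri
    field_simp
    ring
  rw [h2]
  unfold Ri
  field_simp
  ring

theorem Ri_mono {s t : ℝ} (hs : 0 < s) (h : s < t) : Ri s < Ri t := by
  unfold Ri
  rw [div_lt_div_iff₀ (by linarith) (by linarith)]
  nlinarith

/-- the preimages of `P` -/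
noncomputable def sq : ℕ → ℝ
  | 0 => Ri P
  | n + 1 => 1 / (sq n + 3)

theorem sq0_lo : 4108 / 10000 < sq 0 := by
  have h1 := P_lo
  unfold sq Ri
  rw [lt_div_iff₀ (by linarith)]
  linarith

theorem sq0_hi : sq 0 < 4109 / 10000 := by
  have h1 := P_hi
  have h2 := P_lo
  unfold sq Ri
  rw [div_lt_iff₀ (by linarith)]
  linarith

/-- two steps -/
noncomputable def A (x : ℝ) : ℝ := 1 / (1 / (x + 3) + 3)

theorem A_eq {x : ℝ} (hx : 0 < x) : A x = (x + 3) / (3 * x + 10) := by
  have h1 : x + 3 ≠ 0 := by linarith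
  have h2 : 1 / (x + 3) + 3 = (3 * x + 10) / (x + 3) := by
    field_simp
    ring
  unfold A
  rw [h2, one_div_div]

theorem A_mono {x y : ℝ} (hx : 0 < x) (h : x < y) : A x < A y := by
  rw [A_eq hx, A_eq (hx.trans h), div_lt_div_iff₀ (by linarith) (by linarith)]
  nlinarith

theorem A_P : A P = P := by
  have h1 := P_lo
  have h2 := P_eq
  rw [A_eq (by linarith), div_eq_iff (by linarith)]
  linarith

theorem A_lt {x : ℝ} (hx : P < x) : A x < x := by
  have h1 := P_lo
  have h2 := P_eq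
  rw [A_eq (by linarith), div_lt_iff₀ (by linarith)]
  nlinarith

theorem sq_two (n : ℕ) : sq (n + 2) = A (sq n) := rfl

theorem sq_pos : ∀ n, 0 < sq n
  | 0 => by have := sq0_lo; linarith
  | n + 1 => by
    have := sq_pos n
    unfold sq
    positivity

theorem sq_le (n : ℕ) : sq n ≤ sq 0 := by
  cases n with
  | zero => exact le_rfl
  | succ n =>
    have h1 := sq0_lo
    have h2 : sq (n + 1) ≤ 1 / 3 := by
      have := sq_pos n
      unfold sq
      apply one_div_le_one_div_of_le <;> linarith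
    linarith

theorem even_gt : ∀ k : ℕ, P < sq (2 * k)
  | 0 => by
    have h1 := P_hi
    have h2 := sq0_lo
    rw [mul_zero]
    linarith
  | k + 1 => by
    have h1 := P_lo
    rw [show 2 * (k + 1) = 2 * k + 2 by ring, sq_two, ← A_P]
    exact A_mono (by linarith) (even_gt k)

theorem even_anti : StrictAnti fun k : ℕ => sq (2 * k) := by
  refine strictAnti_nat_of_succ_lt fun k => ?_
  change sq (2 * (k + 1)) < sq (2 * k)
  rw [show 2 * (k + 1) = 2 * k + 2 by ring, sq_two]
  exact A_lt (even_gt k)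

/-- the parameters -/
noncomputable def cc (k : ℕ) : ℝ := A (Ri (sq (2 * k)))

theorem Ri_bounds (k : ℕ) : sq 0 < Ri (sq (2 * k)) := by
  have h1 := P_lo
  exact Ri_mono (by linarith) (even_gt k)

theorem sq2_le (j : ℕ) : sq (j + 1) ≤ sq 2 := by
  have e2 : sq 2 = A (sq 0) := rfl
  cases j with
  | zero =>
    have h1 := sq0_lo
    have h2 := sq0_hi
    rw [e2, A_eq (by linarith)]
    have : sq (0 + 1) < 2935 / 10000 := by
      unfold sq
      rw [div_lt_iff₀ (by linarith)]
      linarith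
    have : 2935 / 10000 < (sq 0 + 3) / (3 * sq 0 + 10) := by
      rw [lt_div_iff₀ (by linarith)]
      linarith
    linarith
  | succ j =>
    rw [show j + 1 + 1 = j + 2 by ring, sq_two, e2]
    rcases (sq_le j).eq_or_lt with h | h
    · rw [h]
    · exact (A_mono (sq_pos j) h).le

theorem cc_gt (k : ℕ) : sq 2 < cc k := by
  have e2 : sq 2 = A (sq 0) := rfl
  rw [e2]
  exact A_mono (sq_pos 0) (Ri_bounds k)

theorem sq2_lo : 303655 / 1000000 < sq 2 := by
  have e2 : sq 2 = A (sq 0) := rfl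
  have h1 := sq0_lo
  rw [e2, A_eq (by linarith), lt_div_iff₀ (by linarith)]
  linarith

theorem sq2_hi : sq 2 < 303662 / 1000000 := by
  have e2 : sq 2 = A (sq 0) := rfl
  have h1 := sq0_lo
  have h2 := sq0_hi
  rw [e2, A_eq (by linarith), div_lt_iff₀ (by linarith)]
  linarith

theorem cc_lt (k : ℕ) : cc (k + 1) < 303665 / 1000000 := by
  have h0 : sq (2 * (k + 1)) ≤ sq 2 := sq2_le (2 * k + 1)
  have h1 := sq2_hi
  have h2 := sq_pos (2 * (k + 1))
  have h3 : Ri (sq (2 * (k + 1))) < 41085 / 100000 := by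
    unfold Ri
    rw [div_lt_iff₀ (by linarith)]
    linarith
  have h4 : 0 < Ri (sq (2 * (k + 1))) := (sq_pos 0).trans (Ri_bounds _)
  unfold cc
  rw [A_eq h4, div_lt_iff₀ (by linarith)]
  linarith

theorem W_cc (k : ℕ) : W (1 - cc (k + 1)) := by
  have h1 := cc_lt k
  have h2 := cc_gt (k + 1)
  have h3 := sq2_lo
  constructor <;> linarith

theorem t1_cc (k : ℕ) : t1 (1 - cc k) = 1 / (Ri (sq (2 * k)) + 3) := by
  unfold t1 cc A
  rw [sub_sub_cancel, one_div_one_div]
  ring

theorem t2_cc (k : ℕ) : 1 / t1 (1 - cc k) - 3 = Ri (sq (2 * k)) := by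
  rw [t1_cc, one_div_one_div]
  ring

theorem cc_mem (k : ℕ) : 1 - cc (k + 1) ∈ bifurcationSet := by
  have hW := W_cc k
  set α : ℝ := 1 - cc (k + 1) with hα
  have hcc : 1 - α = cc (k + 1) := by rw [hα]; ring
  have w1 := hW.1
  have w2 := hW.2
  have hle : ∀ j, sq (j + 1) ≤ 1 - α := by
    intro j
    rw [hcc]
    exact (sq2_le j).trans (cc_gt _).le
  have hP : P ≤ 1 - α := by
    rw [hcc]
    have := P_hi
    have := sq2_lo
    have := cc_gt (k + 1)
    linarith
  have hd : α / (1 + α) ≤ sq 0 := by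
    have := sq0_lo
    have h3 : α / (1 + α) ≤ 4108 / 10000 := by
      rw [div_le_iff₀ (by linarith)]
      linarith
    linarith
  let S : Set ℝ := {t | t = t1 α ∨ t = Ri (sq (2 * (k + 1))) ∨ t = P ∨ ∃ j, t = sq j}
  refine mem_E hW (S := S) (Or.inl rfl) ?_
  rintro t (rfl | rfl | rfl | ⟨j, rfl⟩)
  · left
    refine ⟨?_, Or.inr (Or.inl (t2_cc (k + 1)))⟩
    have := t1_hi hW
    linarith
  · right
    refine ⟨hd.trans (Ri_bounds _).le, ?_⟩
    rw [Ri_eq (sq_pos _)]
    exact Or.inr (Or.inr (Or.inr ⟨_, rfl⟩))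
  · left
    refine ⟨hP, Or.inr (Or.inr (Or.inl ?_))⟩
    have h1 := P_lo
    have h2 := P_eq
    rw [sub_eq_iff_eq_add, div_eq_iff (by linarith)]
    linarith
  · cases j with
    | zero =>
      right
      refine ⟨hd, Or.inr (Or.inr (Or.inl ?_))⟩
      have h1 := P_lo
      exact Ri_eq (by linarith)
    | succ j =>
      left
      refine ⟨hle j, Or.inr (Or.inr (Or.inr ⟨j, ?_⟩))⟩
      change 1 / (1 / (sq j + 3)) - 3 = sq j
      rw [one_div_one_div]
      ring

theorem cc_inj : Function.Injective fun k : ℕ => 1 - cc (k + 1) := by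
  have hanti : StrictAnti fun k : ℕ => cc k := by
    intro i j hij
    have h1 := even_anti hij
    change sq (2 * j) < sq (2 * i) at h1
    have h2 := Ri_mono (sq_pos _) h1
    exact A_mono ((sq_pos 0).trans (Ri_bounds j)) h2
  intro i j hij
  have h1 : cc (i + 1) = cc (j + 1) := by
    have : 1 - cc (i + 1) = 1 - cc (j + 1) := hij
    linarith
  have := hanti.injective h1
  omega

end Pool.Agent.T2h2.TI
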