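import Pool.Agent.T2h2.TI.Rat
import Pool.Agent.T2h2.TI.Surv

/-!
# Maximal intervals, and the end of the proof
-/

set_option autoImplicit false

open MeasureTheory Set Filter Topology

namespace Pool.Agent.T2h2.TI

theorem exists_max {M N : ℕ} {J : Set ℝ} {x : ℝ} (hJ : IsOpenInterval J) (hm : Matches M N J)
    (hx : x ∈ J) : ∃ K : Set ℝ, x ∈ K ∧ IsOpenInterval K ∧ Matches M N K ∧
      ∀ J' : Set ℝ, IsOpenInterval J' → Matches M N J' → K ⊆ J' → J' = K := by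
  set F : Set (Set ℝ) := {J' | IsOpenInterval J' ∧ Matches M N J' ∧ x ∈ J'} with hF
  set K : Set ℝ := ⋃₀ F with hK
  have hJF : J ∈ F := ⟨hJ, hm, hx⟩
  have hxK : x ∈ K := mem_sUnion.2 ⟨J, hJF, hx⟩
  have hsub : K ⊆ Icc 0 1 := by
    rintro y ⟨J', ⟨⟨a, b, -, -, h01⟩, -, -⟩, hy⟩
    exact h01 hy
  have hopen : IsOpen K := by
    refine isOpen_sUnion ?_
    rintro J' ⟨⟨a, b, -, rfl, -⟩, -, -⟩
    exact isOpen_Ioo
  have hconn : IsPreconnected K := by
    refine isPreconnected_sUnion x F (fun J' h => h.2.2) ?_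
    rintro J' ⟨⟨a, b, -, rfl, -⟩, -, -⟩
    exact isPreconnected_Ioo
  have hbb : BddBelow K := ⟨0, fun y hy => (hsub hy).1⟩
  have hba : BddAbove K := ⟨1, fun y hy => (hsub hy).2⟩
  have hIoo : K = Ioo (sInf K) (sSup K) := by
    have hconn' : IsConnected K := ⟨⟨x, hxK⟩, hconn⟩
    refine Subset.antisymm ?_ (hconn'.Ioo_csInf_csSup_subset hbb hba)
    intro y hy
    obtain ⟨ε, hε, hball⟩ := Metric.isOpen_iff.1 hopen y hy
    constructor
    · have : y - ε / 2 ∈ K := hball (by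
        rw [Metric.mem_ball, Real.dist_eq, show y - ε / 2 - y = -(ε / 2) by ring, abs_neg,
          abs_of_pos (by linarith)]
        linarith)
      have := csInf_le hbb this
      linarith
    · have : y + ε / 2 ∈ K := hball (by
        rw [Metric.mem_ball, Real.dist_eq, show y + ε / 2 - y = ε / 2 by ring,
          abs_of_pos (by linarith)]
        linarith)
      have := le_csSup hba this
      linarith
  have hKint : IsOpenInterval K := by
    refine ⟨sInf K, sSup K, ?_, hIoo, hsub⟩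
    rw [hIoo] at hxK
    exact hxK.1.trans hxK.2
  have hKm : Matches M N K := by
    constructor
    · rintro y ⟨J', ⟨-, h2, -⟩, hy⟩
      exact h2.1 y hy
    · refine measure_null_of_locally_null _ ?_
      rintro y ⟨⟨J', hJ', hy⟩, hy2⟩
      refine ⟨{α | α ∈ J' ∧ (T α)^[M - 1] (α - 1) = (T α)^[N - 1] α}, ?_, hJ'.2.1.2⟩
      obtain ⟨a, b, hab, rfl, -⟩ := hJ'.1
      have h1 : Ioo a b ∈ 𝓝 y := isOpen_Ioo.mem_nhds hy
      have h2 := inter_mem_nhdsWithin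
        {α | α ∈ K ∧ (T α)^[M - 1] (α - 1) = (T α)^[N - 1] α} h1
      refine Filter.mem_of_superset h2 ?_
      rintro z ⟨⟨-, hz⟩, hz'⟩
      exact ⟨hz', hz⟩
  refine ⟨K, hxK, hKint, hKm, fun J' h1 h2 h3 => ?_⟩
  refine Subset.antisymm (fun y hy => ?_) h3
  exact mem_sUnion.2 ⟨J', ⟨h1, h2, h3 hxK⟩, hy⟩

/-- a point of `[0,1]` which lies in some interval with (i), (ii) is not in `E` -/
theorem not_mem_of_match {M N : ℕ} {J : Set ℝ} {x : ℝ} (hM : 1 ≤ M) (hN : 1 ≤ N)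
    (hJ : IsOpenInterval J) (hm : Matches M N J) (hx : x ∈ J) : x ∉ bifurcationSet := by
  rintro ⟨-, h⟩
  obtain ⟨K, hxK, h1, h2, h3⟩ := exists_max hJ hm hx
  exact h (mem_sUnion.2 ⟨K, ⟨M, N, hM, hN, h1, h2, h3⟩, hxK⟩)

theorem rat_not_mem {r : ℚ} (h : W (r : ℝ)) : (r : ℝ) ∉ bifurcationSet := by
  obtain ⟨M, hM, J, hJ, hm, hr⟩ := rat_match h
  exact not_mem_of_match hM hM hJ hm hr

theorem isClosed_E : IsClosed bifurcationSet := by
  refine isClosed_Icc.sdiff ?_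
  refine isOpen_sUnion ?_
  rintro J ⟨M, N, -, -, ⟨a, b, -, rfl, -⟩, -, -⟩
  exact isOpen_Ioo

/-- there is a non-isolated point of `E` in the window -/
theorem exists_nonIsolated : ∃ β : ℝ, W β ∧ β ∈ nonIsolated bifurcationSet := by
  have hinf : (range fun k : ℕ => 1 - cc (k + 1)).Infinite := infinite_range_of_injective cc_inj
  have hsub : (range fun k : ℕ => 1 - cc (k + 1)) ⊆ Icc (696335 / 1000000) (696345 / 1000000) := by
    rintro _ ⟨k, rfl⟩
    have h1 := cc_lt k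
    have h2 := cc_gt (k + 1)
    have h3 := sq2_lo
    constructor
    · change (696335 / 1000000 : ℝ) ≤ 1 - cc (k + 1)
      linarith
    · change 1 - cc (k + 1) ≤ (696345 / 1000000 : ℝ)
      linarith
  obtain ⟨β, hβ, hacc⟩ := hinf.exists_accPt_of_subset_isCompact isCompact_Icc hsub
  have hE : (range fun k : ℕ => 1 - cc (k + 1)) ⊆ bifurcationSet := by
    rintro _ ⟨k, rfl⟩
    exact cc_mem k
  refine ⟨β, ⟨by linarith [hβ.1], by linarith [hβ.2]⟩, ?_, ?_⟩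
  · have hcl : β ∈ closure (range fun k : ℕ => 1 - cc (k + 1)) :=
      mem_closure_iff_clusterPt.2 (AccPt.clusterPt hacc)
    exact isClosed_E.closure_subset (closure_mono hE hcl)
  · intro U hU
    obtain ⟨y, hy, hne⟩ := accPt_iff_nhds.1 hacc U hU
    exact ⟨y, hy.1, hE hy.2, hne⟩

/-- maximality plays no role for the set `E` -/
theorem E_eq : bifurcationSet = Icc 0 1 \ ⋃₀ {J : Set ℝ | ∃ M N : ℕ, 1 ≤ M ∧ 1 ≤ N ∧
    IsOpenInterval J ∧ Matches M N J} := by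
  ext x
  constructor
  · rintro ⟨h1, h2⟩
    refine ⟨h1, ?_⟩
    rintro ⟨J, ⟨M, N, hM, hN, hJ, hm⟩, hx⟩
    exact not_mem_of_match hM hN hJ hm hx ⟨h1, h2⟩
  · rintro ⟨h1, h2⟩
    refine ⟨h1, ?_⟩
    rintro ⟨J, ⟨M, N, hM, hN, hJ, hm, -⟩, hx⟩
    exact h2 (mem_sUnion.2 ⟨J, ⟨M, N, hM, hN, hJ, hm⟩, hx⟩)

/-- the main theorem -/
theorem main : ∃ β ∈ nonIsolated bifurcationSet, β ∈ Ioo (69633 / 100000 : ℝ) (69635 / 100000) ∧
    ∀ r : ℚ, (r : ℝ) ∈ Ioo (69633 / 100000 : ℝ) (69635 / 100000) → (r : ℝ) ∉ bifurcationSet := by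
  obtain ⟨β, hW, hβ⟩ := exists_nonIsolated
  exact ⟨β, hβ, hW, fun r hr => rat_not_mem hr⟩

theorem closure_ne : closure (bifurcationSet ∩ range ((↑) : ℚ → ℝ)) ≠ nonIsolated bifurcationSet := by
  intro heq
  obtain ⟨β, hβ, hW, hr⟩ := main
  rw [← heq] at hβ
  obtain ⟨y, hy, hyE, ⟨r, rfl⟩⟩ := mem_closure_iff.1 hβ _ isOpen_Ioo hW
  exact hr r hy hyE

end Pool.Agent.T2h2.TI
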