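import Pool.Agent.T2h2.TI.Dyn

/-!
# Every rational number of the window lies in a matching interval
-/

set_option autoImplicit false

open MeasureTheory Set Filter Topology

namespace Pool.Agent.T2h2.TI

/-- the orbit with itinerary `l`, ending in the hole -/
def Adm (α : ℝ) : List Bool → ℝ → Prop
  | [], t => 1 - α < t ∧ t < α / (1 + α)
  | true :: l, t => (0 < t ∧ t < 1 - α) ∧ Adm α l (1 / t - 3)
  | false :: l, t => (α / (1 + α) < t ∧ t < 1 / 2) ∧ Adm α l (t / (1 - 2 * t) - 2)

/-- the number of steps -/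
def cost : List Bool → ℕ
  | [] => 0
  | true :: l => cost l + 1
  | false :: l => cost l + 2

theorem adm_match {α : ℝ} (h : W α) : ∀ (l : List Bool) (t : ℝ) (n m : ℕ), Inv α t → St α n m t →
    Adm α l t → (T α)^[m + cost l + 2] (α - 1) = (T α)^[n + cost l + 1] α ∧
      (T α)^[m + cost l + 1] (α - 1) ≠ (T α)^[n + cost l] α
  | [], t, n, m, ht, hst, ha => stF h ht ha.1 ha.2 hst
  | true :: l, t, n, m, ht, hst, ha => by
    have := adm_match h l (1 / t - 3) (n + 1) (m + 1) (invL h ht ha.1.2.le)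
      (stL h ht ha.1.2.le hst) ha.2
    have e1 : m + cost (true :: l) = m + 1 + cost l := by simp only [cost]; ring
    have e2 : n + cost (true :: l) = n + 1 + cost l := by simp only [cost]; ring
    rw [e1, e2]
    exact this
  | false :: l, t, n, m, ht, hst, ha => by
    have := adm_match h l (t / (1 - 2 * t) - 2) (n + 2) (m + 2) (invR h ht ha.1.1.le)
      (stR h ht ha.1.1.le hst) ha.2
    have e1 : m + cost (false :: l) = m + 2 + cost l := by simp only [cost]; ring
    have e2 : n + cost (false :: l) = n + 2 + cost l := by simp only [cost]; ring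
    rw [e1, e2]
    exact this

theorem adm_open {a : ℝ} (ha0 : 0 < a) : ∀ (l : List Bool) (f : ℝ → ℝ), ContinuousAt f a →
    Adm a l (f a) → ∀ᶠ x in 𝓝 a, Adm x l (f x)
  | [], f, hf, ha => by
    have h1 : ContinuousAt (fun x : ℝ => 1 - x) a := by fun_prop
    have h2 : ContinuousAt (fun x : ℝ => x / (1 + x)) a :=
      continuousAt_id.div (by fun_prop) (by linarith)
    exact (h1.eventually_lt hf ha.1).and (hf.eventually_lt h2 ha.2)
  | true :: l, f, hf, ha => by
    have h1 : ContinuousAt (fun x : ℝ => 1 - x) a := by fun_prop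
    have h2 : ContinuousAt (fun x : ℝ => 1 / f x - 3) a :=
      (continuousAt_const.div hf ha.1.1.ne').sub continuousAt_const
    have h3 := adm_open ha0 l (fun x => 1 / f x - 3) h2 ha.2
    have h4 : ∀ᶠ x in 𝓝 a, (0 : ℝ) < f x := hf.eventually_const_lt ha.1.1
    filter_upwards [h3, h4, hf.eventually_lt h1 ha.1.2] with x h5 h6 h7
    exact ⟨⟨h6, h7⟩, h5⟩
  | false :: l, f, hf, ha => by
    have h1 : ContinuousAt (fun x : ℝ => x / (1 + x)) a :=
      continuousAt_id.div (by fun_prop) (by linarith)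
    have h2 : ContinuousAt (fun x : ℝ => f x / (1 - 2 * f x) - 2) a :=
      (hf.div (continuousAt_const.sub (continuousAt_const.mul hf))
        (by
          change (1 : ℝ) - 2 * f a ≠ 0
          have := ha.1.2
          linarith)).sub continuousAt_const
    have h3 := adm_open ha0 l (fun x => f x / (1 - 2 * f x) - 2) h2 ha.2
    have h4 : ∀ᶠ x in 𝓝 a, f x < 1 / 2 := hf.eventually_lt_const ha.1.2
    filter_upwards [h3, h4, h1.eventually_lt hf ha.1.1] with x h5 h6 h7
    exact ⟨⟨h7, h6⟩, h5⟩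

theorem den_le {r : ℚ} {a : ℤ} {q : ℕ} (hq : 0 < q) (h : (r : ℝ) = a / q) : r.den ≤ q := by
  have h1 : r = (a : ℚ) / ((q : ℤ) : ℚ) := by
    have : (r : ℝ) = (((a : ℚ) / ((q : ℤ) : ℚ) : ℚ) : ℝ) := by
      rw [h]
      push_cast
      rfl
    exact_mod_cast this
  have h2 : (r.den : ℤ) ∣ (q : ℤ) := by
    have := Rat.den_dvd a (q : ℤ)
    rw [Rat.divInt_eq_div, ← h1] at this
    exact this
  exact Nat.le_of_dvd hq (by exact_mod_cast h2)

/-- the orbit of a rational number ends in the hole -/
theorem exists_adm {r : ℚ} (h : W (r : ℝ)) : ∀ (q p : ℕ), 0 < q → q < r.den →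
    Inv (r : ℝ) ((p : ℝ) / q) → ∃ l, Adm (r : ℝ) l ((p : ℝ) / q) := by
  intro q
  induction q using Nat.strong_induction_on with
  | _ q ih =>
  intro p hq hqr ht
  have w1 := h.1
  have w2 := h.2
  have hq' : (0 : ℝ) < q := by exact_mod_cast hq
  have h1 := inv_lo h ht
  have h2 := inv_hi h ht
  have hd := d_lo h
  have hp' : (0 : ℝ) < p := by
    rw [lt_div_iff₀ hq'] at h1
    linarith
  have hp : 0 < p := by exact_mod_cast hp'
  rcases lt_trichotomy ((p : ℝ) / q) (1 - r) with h3 | h3 | h3
  · -- left branch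
    have hlt : (p : ℝ) < q := by
      rw [div_lt_iff₀ hq'] at h3
      nlinarith
    have hlt3 : 3 * (p : ℝ) < q := by
      rw [div_lt_iff₀ hq'] at h3
      nlinarith
    have hlt' : p < q := by exact_mod_cast hlt
    have hlt3' : 3 * p < q := by exact_mod_cast hlt3
    have e : 1 / ((p : ℝ) / q) - 3 = ((q - 3 * p : ℕ) : ℝ) / p := by
      rw [Nat.cast_sub hlt3'.le]
      push_cast
      rw [one_div_div, sub_div]
      congr 1
      field_simp
    have hi := invL h ht h3.le
    rw [e] at hi
    obtain ⟨l, hl⟩ := ih p hlt' (q - 3 * p) hp (hlt'.trans hqr) hi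
    refine ⟨true :: l, ⟨⟨by positivity, h3⟩, ?_⟩⟩
    rw [e]
    exact hl
  · exfalso
    have : (r : ℝ) = ((q - p : ℤ) : ℝ) / q := by
      push_cast
      rw [sub_div, div_self hq'.ne']
      linarith
    have := den_le hq this
    omega
  · rcases lt_trichotomy ((p : ℝ) / q) ((r : ℝ) / (1 + r)) with h4 | h4 | h4
    · exact ⟨[], h3, h4⟩
    · exfalso
      have hpq : (p : ℝ) < q := by
        rw [div_lt_iff₀ hq'] at h2
        linarith
      have hpq' : p < q := by exact_mod_cast hpq
      have h5 : (r : ℝ) = ((p : ℤ) : ℝ) / (q - p : ℕ) := by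
        rw [Nat.cast_sub hpq'.le]
        push_cast
        have h6 : (1 : ℝ) + r ≠ 0 := by linarith
        have h7 : (q : ℝ) - p ≠ 0 := by linarith
        rw [eq_div_iff h7]
        rw [div_eq_div_iff hq'.ne' h6] at h4
        linarith
      have := den_le (by omega) h5
      omega
    · -- right branch
      have h5 : 2 * (p : ℝ) < q := by
        rw [div_lt_iff₀ hq'] at h2
        linarith
      have h6 : 2 * (q : ℝ) < 5 * p := by
        have : 4104 / 10000 < (p : ℝ) / q := hd.trans h4
        rw [lt_div_iff₀ hq'] at this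
        linarith
      have h5' : 2 * p < q := by exact_mod_cast h5
      have h6' : 2 * q < 5 * p := by exact_mod_cast h6
      have e : (p : ℝ) / q / (1 - 2 * ((p : ℝ) / q)) - 2 =
          ((5 * p - 2 * q : ℕ) : ℝ) / (q - 2 * p : ℕ) := by
        rw [Nat.cast_sub h6'.le, Nat.cast_sub h5'.le]
        push_cast
        have h7 : (q : ℝ) - 2 * p ≠ 0 := by linarith
        have h8 : 1 - 2 * ((p : ℝ) / q) = (q - 2 * p) / q := by
          field_simp
        rw [h8, div_div_div_cancel_right₀ hq'.ne', div_sub' h7]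
        congr 1
        ring
      have hi := invR h ht h4.le
      rw [e] at hi
      obtain ⟨l, hl⟩ := ih (q - 2 * p) (by omega) (5 * p - 2 * q) (by omega) (by omega) hi
      refine ⟨false :: l, ⟨⟨h4, by linarith⟩, ?_⟩⟩
      rw [e]
      exact hl

theorem W_nhds {a : ℝ} (h : W a) : ∀ᶠ x in 𝓝 a, W x :=
  (eventually_gt_nhds h.1).and (eventually_lt_nhds h.2)

/-- every rational number of the window has a neighbourhood with (i), (ii) -/
theorem rat_match {r : ℚ} (h : W (r : ℝ)) : ∃ M : ℕ, 1 ≤ M ∧ ∃ J : Set ℝ, IsOpenInterval J ∧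
    Matches M M J ∧ (r : ℝ) ∈ J := by
  have w1 := h.1
  have w2 := h.2
  have hden : (0 : ℝ) < r.den := by exact_mod_cast r.den_pos
  have hr : (r : ℝ) = (r.num : ℝ) / r.den := by exact_mod_cast (Rat.num_div_den r).symm
  -- numerator as a natural number
  obtain ⟨a, ha⟩ : ∃ a : ℕ, (a : ℤ) = r.num := by
    refine ⟨r.num.toNat, Int.toNat_of_nonneg ?_⟩
    have : (0 : ℝ) < r := by linarith
    have h0 : (0 : ℚ) < r := by exact_mod_cast this
    exact (Rat.num_pos.2 h0).le
  have har : (r : ℝ) * r.den = a := by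
    rw [hr, div_mul_cancel₀ _ hden.ne', ← ha]
    simp
  have h1 : (a : ℝ) < r.den := by rw [← har]; nlinarith
  have h2 : 2 * (r.den : ℝ) < 3 * a := by rw [← har]; nlinarith
  have h1' : a < r.den := by exact_mod_cast h1
  have h2' : 2 * r.den < 3 * a := by exact_mod_cast h2
  have e : t1 (r : ℝ) = ((3 * a - 2 * r.den : ℕ) : ℝ) / (r.den - a : ℕ) := by
    rw [Nat.cast_sub h2'.le, Nat.cast_sub h1'.le]
    push_cast
    rw [← har]
    unfold t1
    have h3 : (1 : ℝ) - r ≠ 0 := by linarith
    have h4 : (r.den : ℝ) - r * r.den ≠ 0 := by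
      have : (r.den : ℝ) - r * r.den = r.den * (1 - r) := by ring
      rw [this]
      exact mul_ne_zero hden.ne' h3
    rw [eq_div_iff h4]
    field_simp
    ring
  have hi : Inv (r : ℝ) (((3 * a - 2 * r.den : ℕ) : ℝ) / (r.den - a : ℕ)) := by
    rw [← e]
    exact inv_t1 h
  have ha0 : 0 < a := by omega
  obtain ⟨l, hl⟩ := exists_adm h (r.den - a) (3 * a - 2 * r.den) (by omega) (by omega) hi
  rw [← e] at hl
  have hc : ContinuousAt t1 (r : ℝ) := by
    unfold t1
    exact (continuousAt_const.div (by fun_prop) (by linarith)).sub continuousAt_const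
  have hev := (adm_open (by linarith) l t1 hc hl).and (W_nhds h)
  obtain ⟨ε, hε, hball⟩ := Metric.eventually_nhds_iff.1 hev
  have hmem : ∀ x ∈ Ioo ((r : ℝ) - ε) (r + ε), Adm x l (t1 x) ∧ W x := by
    intro x hx
    refine hball ?_
    rw [Real.dist_eq, abs_lt]
    constructor <;> linarith [hx.1, hx.2]
  refine ⟨cost l + 3, by omega, Ioo ((r : ℝ) - ε) (r + ε), ⟨_, _, by linarith, rfl, ?_⟩,
    ⟨?_, ?_⟩, ⟨by linarith, by linarith⟩⟩
  · intro x hx
    have := (hmem x hx).2
    exact ⟨by linarith [this.1], by linarith [this.2]⟩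
  · intro x hx
    have := (adm_match (hmem x hx).2 l _ 2 1 (inv_t1 (hmem x hx).2) (st0 (hmem x hx).2)
      (hmem x hx).1).1
    rw [show 1 + cost l + 2 = cost l + 3 by ring, show 2 + cost l + 1 = cost l + 3 by ring] at this
    exact this
  · have : {x | x ∈ Ioo ((r : ℝ) - ε) (r + ε) ∧
        (T x)^[cost l + 3 - 1] (x - 1) = (T x)^[cost l + 3 - 1] x} = ∅ := by
      rw [Set.eq_empty_iff_forall_notMem]
      rintro x ⟨hx, hx2⟩
      have := (adm_match (hmem x hx).2 l _ 2 1 (inv_t1 (hmem x hx).2) (st0 (hmem x hx).2)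
        (hmem x hx).1).2
      rw [show 1 + cost l + 1 = cost l + 3 - 1 by omega,
        show 2 + cost l = cost l + 3 - 1 by omega] at this
      exact this hx2
    rw [this]
    exact measure_empty

end Pool.Agent.T2h2.TI
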